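import Pool.Agent.K.MP_0d06a5_lc.C5

open Pool.Agent.P.MP_0d06a5_lc N68a2faeb

theorem Pool.Agent.Results.MP_0d06a5_lc.Complexity.result :
    (∀ L ∈ NP, ∃ f : List Bool → List (ℤ × ℤ) × ℕ, IsPolyTime f ∧
      ∀ x, GeneralPosition (f x).1 ∧ (L x = true ↔ (f x).2 ≤ cf (f x).1)) ∧
    (∃ L ∈ NP, ∀ (S : List (ℤ × ℤ)) (k : ℕ),
      L (N487b59b3.bitEncode (S, k)) = true ↔ k ≤ cf S) ∧
    ((∃ A : List (ℤ × ℤ) → List ((ℤ × ℤ) × (ℤ × ℤ)), IsPolyTime A ∧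
      ∀ S, (A S).Nodup ∧ IsCrossingFamily S (A S).toFinset ∧ (A S).length = cf S) ↔
        N68a2faeb.P = NP) := by
  refine ⟨fun L hL => ?_, cf_NP, ?_, fun h => ?_⟩
  · obtain ⟨f, hf, h⟩ := hard hL
    exact ⟨f, hf.isPolyTime, h⟩
  · rintro ⟨A, hA, h⟩
    exact collapse A (Pool.Agent.Lib.PolyTime.isPolyTime_iff.1 hA) fun S _ => (h S).2.2
  · obtain ⟨A, hA, h'⟩ := search h
    exact ⟨A, hA.isPolyTime, h'⟩
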